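import Pool.Agent.MBX.Stmts

/-!
# MBX, row SYD: the Dirac operator is symmetric
-/

set_option autoImplicit false

open MeasureTheory Complex

namespace Pool.Agent.MBX.H70

open Pool.Agent.Helper49_Pauli
open Pool.Agent.MBX

/-- Products of test functions are integrable. -/
lemma int_mul {f g : X3 → ℂ} (hf : CS f) (hg : CS g) :
    Integrable fun x => (starRingEnd ℂ) (f x) * g x := by
  have h1 : Continuous fun x => (starRingEnd ℂ) (f x) * g x :=
    (continuous_conj.comp hf.1.continuous).mul hg.1.continuous
  exact h1.integrable_of_hasCompactSupport (hg.2.mul_left)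

/-- The real part of the integral of six products. -/
lemma six {a b c d e k : X3 → ℂ} (ha : Integrable a) (hb : Integrable b) (hc : Integrable c)
    (hd : Integrable d) (he : Integrable e) (hk : Integrable k) {F : X3 → ℝ}
    (hF : ∀ x, F x = (a x + I * b x + c x + d x - I * e x - k x).re) :
    ∫ x, F x = ((∫ x, a x) + I * (∫ x, b x) + (∫ x, c x) + (∫ x, d x) - I * (∫ x, e x) -
      ∫ x, k x).re := by
  have h1 : Integrable fun x => a x + I * b x := ha.add (hb.const_mul I)
  have h2 : Integrable fun x => a x + I * b x + c x := h1.add hc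
  have h3 : Integrable fun x => a x + I * b x + c x + d x := h2.add hd
  have h4 : Integrable fun x => a x + I * b x + c x + d x - I * e x := h3.sub (he.const_mul I)
  have h5 : Integrable fun x => a x + I * b x + c x + d x - I * e x - k x := h4.sub hk
  have h6 : ∫ x, F x = (∫ x, (a x + I * b x + c x + d x - I * e x - k x)).re := by
    have h7 := reCLM.integral_comp_comm h5
    have h8 : (fun x => F x) = fun x => reCLM (a x + I * b x + c x + d x - I * e x - k x) := by
      funext x
      rw [hF x]
      rfl
    rw [h8, h7]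
    rfl
  rw [h6, integral_sub h4 hk, integral_sub h3 (he.const_mul I), integral_add h2 hd,
    integral_add h1 hc, integral_add ha (hb.const_mul I), integral_const_mul, integral_const_mul]

theorem syd (xib : XibStmt) : SydStmt := by
  intro V hV phi chi hphi hchi
  have X := xib V hV
  have hL := fun (j : Fin 3) (s r : Fin 2) =>
    int_mul ((X (fun x => phi x s) (fun x => chi x r) (hphi s) (hchi r) j).1) (hchi r)
  have hR := fun (j : Fin 3) (s r : Fin 2) =>
    int_mul (hphi s) ((X (fun x => chi x r) (fun x => phi x s) (hchi r) (hphi s) j).1)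
  have hE := fun (j : Fin 3) (s r : Fin 2) =>
    (X (fun x => phi x s) (fun x => chi x r) (hphi s) (hchi r) j).2
  rw [six (hL 0 1 0) (hL 1 1 0) (hL 2 0 0) (hL 0 0 1) (hL 1 0 1) (hL 2 1 1)
      (F := fun x => pair (dop V phi x) (chi x)) ?_,
    six (hR 0 1 0) (hR 1 1 0) (hR 2 0 0) (hR 0 0 1) (hR 1 0 1) (hR 2 1 1)
      (F := fun x => pair (phi x) (dop V chi x)) ?_,
    hE 0 1 0, hE 1 1 0, hE 2 0 0, hE 0 0 1, hE 1 0 1, hE 2 1 1]
  · intro x
    have e : ∀ (j : Fin 3) (s : Fin 2), cov V j chi x s = cv V j (fun y => chi y s) x :=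
      fun j s => rfl
    unfold pair dop
    congr 1
    simp only [Fin.sum_univ_two, Fin.sum_univ_three, Pi.add_apply, sg_zero, sg_one, sg_two,
      Matrix.cons_val_zero, Matrix.cons_val_one, e]
    ring
  · intro x
    have e : ∀ (j : Fin 3) (s : Fin 2), cov V j phi x s = cv V j (fun y => phi y s) x :=
      fun j s => rfl
    unfold pair dop
    congr 1
    simp only [Fin.sum_univ_two, Fin.sum_univ_three, Pi.add_apply, sg_zero, sg_one, sg_two,
      Matrix.cons_val_zero, Matrix.cons_val_one, e, map_add, map_mul, map_neg, conj_I]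
    ring

end Pool.Agent.MBX.H70
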